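import Mathlib

/-!
Doubly infinite permutations of almost all integers avoiding 4-term arithmetic progressions.
-/

set_option autoImplicit false

namespace Pool.Agent.H909R3.B7

/-- the `i`-th 2-adic digit of `x` is `1` -/
def bt (x : ℤ) (i : ℕ) : Bool := decide ((x / 2 ^ i) % 2 = 1)

lemma bt_eq_of_dvd (x m : ℤ) (i : ℕ) : bt (x + 2 ^ (i + 1) * m) i = bt x i := by
  unfold bt
  have h : (x + 2 ^ (i + 1) * m) / 2 ^ i = x / 2 ^ i + 2 * m := by
    rw [show x + 2 ^ (i + 1) * m = x + 2 ^ i * (2 * m) by ring]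
    exact Int.add_mul_ediv_left _ _ (by positivity)
  rw [h, Int.add_mul_emod_self_left]

lemma bt_flip (x m : ℤ) (i : ℕ) (hm : m % 2 = 1) : bt (x + 2 ^ i * m) i = !bt x i := by
  unfold bt
  have h : (x + 2 ^ i * m) / 2 ^ i = x / 2 ^ i + m :=
    Int.add_mul_ediv_left _ _ (by positivity)
  rw [h]
  by_cases h1 : x / 2 ^ i % 2 = 1
  · have h2 : ¬ ((x / 2 ^ i + m) % 2 = 1) := by omega
    simp [h1, h2]
  · have h2 : ((x / 2 ^ i + m) % 2 = 1) := by omega
    simp [h1, h2]

lemma exists_val (d : ℤ) (hd : d ≠ 0) : ∃ (v : ℕ) (m : ℤ), d = 2 ^ v * m ∧ m % 2 = 1 := by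
  obtain ⟨m, hm1, hm2⟩ : ∃ m : ℤ, d = 2 ^ (padicValInt 2 d) * m ∧ ¬ (2 : ℤ) ∣ m := by
    have h := (Int.finiteMultiplicity_iff (a := 2) (b := d)).2 ⟨by decide, hd⟩
    obtain ⟨m, hm, hm'⟩ := h.exists_eq_pow_mul_and_not_dvd
    have h3 : padicValInt 2 d = multiplicity 2 d := by
      rw [padicValInt.of_ne_one_ne_zero (by norm_num) hd]
      rfl
    exact ⟨m, by rw [h3]; exact hm, hm'⟩
  exact ⟨_, m, hm1, by omega⟩

/-- the digits of `x`, flipped if `e` -/
def key (e : Bool) (x : ℤ) : Lex (ℕ → Bool) := toLex fun i => xor (bt x i) e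

lemma key_lt (e : Bool) (x m : ℤ) (v : ℕ) (hm : m % 2 = 1) :
    (key e x < key e (x + 2 ^ v * m) ↔ bt x v = e) ∧
    (key e (x + 2 ^ v * m) < key e x ↔ bt x v = !e) := by
  have h1 : ∀ j < v, bt (x + 2 ^ v * m) j = bt x j := by
    intro j hj
    obtain ⟨t, rfl⟩ : ∃ t, v = j + 1 + t := ⟨v - (j + 1), by omega⟩
    rw [show x + 2 ^ (j + 1 + t) * m = x + 2 ^ (j + 1) * (2 ^ t * m) by ring]
    exact bt_eq_of_dvd _ _ _
  have h2 := bt_flip x m v hm
  have key1 : ∀ a b : ℕ → Bool, (∀ j < v, a j = b j) → a v = (!b v) →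
      (toLex a < toLex b ↔ a v = false) := by
    intro a b hab hv
    constructor
    · rintro ⟨i, hi1, hi2⟩
      change a i < b i at hi2
      rcases lt_trichotomy i v with h | h | h
      · rw [hab i h] at hi2
        exact absurd hi2 (lt_irrefl _)
      · subst h
        cases h3 : a i
        · rfl
        · rw [h3] at hi2
          exact absurd hi2 (by cases b i <;> decide)
      · have h3 : a v = b v := hi1 v h
        rw [h3] at hv
        cases h4 : b v <;> simp [h4] at hv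
    · intro h
      refine ⟨v, fun j hj => hab j hj, ?_⟩
      change a v < b v
      rw [h] at hv ⊢
      cases h4 : b v
      · simp [h4] at hv
      · decide
  unfold key
  rw [key1 _ _ (fun j hj => by simp [h1 j hj]) (by simp [h2]),
    key1 _ _ (fun j hj => by simp [h1 j hj]) (by simp [h2])]
  constructor
  · cases bt x v <;> cases e <;> simp
  · rw [h2]
    cases bt x v <;> cases e <;> simp

lemma key_inj (e : Bool) (x y : ℤ) (h : key e x = key e y) : x = y := by
  by_contra hne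
  obtain ⟨v, m, hv, hm⟩ := exists_val (y - x) (sub_ne_zero.2 (Ne.symm hne))
  have hy : y = x + 2 ^ v * m := by linarith
  obtain ⟨h1, h2⟩ := key_lt e x m v hm
  rw [← hy] at h1 h2
  rw [h] at h1 h2
  have h3 : ¬ (bt x v = e) := fun hh => lt_irrefl _ (h1.2 hh)
  have h4 : ¬ (bt x v = !e) := fun hh => lt_irrefl _ (h2.2 hh)
  cases hb : bt x v <;> cases e <;> simp_all

/-- no monotone 3-term progression -/
lemma key_three (e : Bool) (x d : ℤ) (hd : d ≠ 0) :
    ¬ (key e x < key e (x + d) ∧ key e (x + d) < key e (x + d + d)) ∧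
    ¬ (key e (x + d) < key e x ∧ key e (x + d + d) < key e (x + d)) := by
  obtain ⟨v, m, rfl, hm⟩ := exists_val d hd
  have h0 := bt_flip x m v hm
  obtain ⟨h1, h2⟩ := key_lt e x m v hm
  obtain ⟨h3, h4⟩ := key_lt e (x + 2 ^ v * m) m v hm
  rw [h1, h2, h3, h4, h0]
  constructor
  · cases bt x v <;> cases e <;> simp
  · cases bt x v <;> cases e <;> simp

lemma key_four (e : Bool) (x d : ℤ) (hd : d ≠ 0) :
    ¬ (key e x < key e (x + d) ∧ key (!e) (x + d + d) < key (!e) (x + d + d + d)) ∧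
    ¬ (key e (x + d) < key e x ∧ key (!e) (x + d + d + d) < key (!e) (x + d + d)) := by
  obtain ⟨v, m, rfl, hm⟩ := exists_val d hd
  have h0 := bt_flip x m v hm
  have h00 := bt_flip (x + 2 ^ v * m) m v hm
  obtain ⟨h1, h2⟩ := key_lt e x m v hm
  obtain ⟨h3, h4⟩ := key_lt (!e) (x + 2 ^ v * m + 2 ^ v * m) m v hm
  rw [h1, h2, h3, h4, h00, h0]
  constructor
  · cases bt x v <;> cases e <;> simp
  · cases bt x v <;> cases e <;> simp

end Pool.Agent.H909R3.B7
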