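import Pool.Agent.H909R3.B7.Order

set_option autoImplicit false

namespace Pool.Agent.H909R3.B7

open Set

variable {T : ℕ → ℕ}

lemma pos_le (k : ℕ) : pos k ≤ k := by
  unfold pos; split_ifs <;> omega

lemma le_pos (k : ℕ) : -(k : ℤ) ≤ pos k := by
  unfold pos; split_ifs <;> omega

lemma lt_of_pos_lt {x y : ℤ} (h : pos (idx T x) < pos (idx T y)) : fkey T x < fkey T y :=
  Prod.Lex.lt_iff.2 (Or.inl h)

lemma pos_mono {x y : ℤ} (h : fkey T x ≤ fkey T y) : pos (idx T x) ≤ pos (idx T y) := by
  rcases Prod.Lex.le_iff.1 h with h1 | ⟨h1, -⟩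
  · exact le_of_lt h1
  · exact le_of_eq h1

/-- the good integers, with the new order -/
structure GS (T : ℕ → ℕ) where
  /-- the integer -/
  val : ℤ
  /-- it is good -/
  good : Good T val

lemma GS.ext' {a b : GS T} (h : a.val = b.val) : a = b := by
  cases a; cases b; cases h; rfl

noncomputable instance : LinearOrder (GS T) :=
  LinearOrder.lift' (fun x : GS T => fkey T x.val) (fun _ _ hxy => GS.ext' (fkey_inj _ _ hxy))

/-- the doubly infinite permutation of the good integers -/
theorem exists_perm (h : Grow T) : ∃ π : ℤ → ℤ, Function.Injective π ∧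
    Set.range π = {x | Good T x} ∧ ∀ i j, i < j → fkey T (π i) < fkey T (π j) := by
  classical
  let S := GS T
  have hle : ∀ a b : S, a ≤ b → fkey T a.1 ≤ fkey T b.1 := fun a b hab => hab
  have hlt : ∀ a b : S, fkey T a.1 < fkey T b.1 → a < b := fun a b hab => hab
  have hlt' : ∀ a b : S, a < b → fkey T a.1 < fkey T b.1 := fun a b hab => hab
  have hfin : ∀ a b : S, (Set.Icc a b).Finite := by
    intro a b
    have h1 : (Set.Icc (-((T (max (idx T a.1) (idx T b.1) + 1) : ℕ) : ℤ))
        ((T (max (idx T a.1) (idx T b.1) + 1) : ℕ) : ℤ)).Finite := Set.finite_Icc _ _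
    refine (h1.preimage (f := fun x : S => x.1) (Set.injOn_of_injective fun a b hab => GS.ext' hab)).subset ?_
    rintro x ⟨hx1, hx2⟩
    have g1 := pos_mono (hle _ _ hx1)
    have g2 := pos_mono (hle _ _ hx2)
    have g3 : idx T x.1 ≤ max (idx T a.1) (idx T b.1) := by
      unfold pos at g1 g2
      split_ifs at g1 g2 <;> omega
    have g4 := lt_idx h x.1
    have g5 : T (idx T x.1 + 1) ≤ T (max (idx T a.1) (idx T b.1) + 1) :=
      h.mono.monotone (by omega)
    simp only [Set.mem_preimage, Set.mem_Icc]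
    omega
  let _ : LocallyFiniteOrder S := LocallyFiniteOrder.ofFiniteIcc hfin
  let _ : SuccOrder S := LinearLocallyFiniteOrder.succOrder S
  let _ : PredOrder S := LinearLocallyFiniteOrder.predOrder S
  have hidx : ∀ k, idx T ((T k : ℕ) : ℤ) = k := fun k =>
    idx_eq h _ _ (by simp) (by simpa using h.mono (Nat.lt_succ_self k))
  have : NoMaxOrder S := ⟨fun a => by
    refine ⟨⟨((T (2 * (idx T a.1 + 1)) : ℕ) : ℤ), Or.inl (by positivity)⟩, ?_⟩
    apply hlt
    apply lt_of_pos_lt
    rw [hidx]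
    have := pos_le (idx T a.1)
    have h2 : pos (2 * (idx T a.1 + 1)) = ((2 * (idx T a.1 + 1) : ℕ) : ℤ) := by
      unfold pos
      rw [if_pos (by omega)]
    rw [h2]
    push_cast
    omega⟩
  have : NoMinOrder S := ⟨fun a => by
    refine ⟨⟨((T (2 * idx T a.1 + 1) : ℕ) : ℤ), Or.inl (by positivity)⟩, ?_⟩
    apply hlt
    apply lt_of_pos_lt
    rw [hidx]
    have := le_pos (idx T a.1)
    have h2 : pos (2 * idx T a.1 + 1) = -((2 * idx T a.1 + 1 : ℕ) : ℤ) := by
      unfold pos
      rw [if_neg (by omega)]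
    rw [h2]
    push_cast
    omega⟩
  have : Nonempty S := ⟨⟨0, Or.inl le_rfl⟩⟩
  let e : S ≃o ℤ := orderIsoIntOfLinearSuccPredArch
  refine ⟨fun n => (e.symm n).1, ?_, ?_, ?_⟩
  · intro m n hmn
    exact e.symm.injective (GS.ext' hmn)
  · ext x
    constructor
    · rintro ⟨n, rfl⟩
      exact (e.symm n).2
    · intro hx
      exact ⟨e ⟨x, hx⟩, by simp⟩
  · intro i j hij
    exact hlt' _ _ (e.symm.strictMono hij)

/-- the removed set is sparse -/
theorem sparse (h : Grow T) (N K : ℕ) (hK : N + 2 * T K < T (K + 1)) :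
    {x : ℤ | ¬ Good T x ∧ -(N : ℤ) ≤ x}.encard ≤ ((6 * T (K - 1) : ℕ) : ℕ∞) := by
  classical
  set w := T (K - 1) with hw
  have hsub : {x : ℤ | ¬ Good T x ∧ -(N : ℤ) ≤ x} ⊆
      ((Finset.Ioo (-(2 * w : ℤ)) 0 ∪ Finset.Ioc (-((T K : ℤ) + 2 * w)) (-(T K : ℤ) + 2 * w) :
        Finset ℤ) : Set ℤ) := by
    rintro x ⟨hx, hN⟩
    unfold Good at hx
    push Not at hx
    obtain ⟨hx0, hx1⟩ := hx
    have a1 := idx_le h x
    have a2 := lt_idx h x
    have a3 : idx T x < K + 1 := h.mono.lt_iff_lt.1 (by omega)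
    have a4 : T (idx T x) + 2 * T (idx T x - 1) ≤ x.natAbs →
      T (idx T x + 1) ≤ x.natAbs + 2 * T (idx T x) := fun hh => by
        have := hx1 hh
        omega
    rw [Finset.coe_union, Set.mem_union, Finset.coe_Ioo, Finset.coe_Ioc, Set.mem_Ioo, Set.mem_Ioc]
    by_cases c1 : idx T x = K
    · rw [c1] at a1 a2 a4
      right
      by_cases c2 : T K + 2 * T (K - 1) ≤ x.natAbs
      · have := a4 c2
        omega
      · rw [← hw] at c2
        omega
    · by_cases c2 : idx T x + 1 = K
      · have c3 : idx T x = K - 1 := by omega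
        rw [c2, c3, ← hw] at a4
        rw [c3, ← hw] at a1
        rw [c2] at a2
        have hg : 2 * T (K - 1 - 1) ≤ w := by
          rcases Nat.eq_zero_or_pos (K - 1) with h0 | h0
          · rw [hw, h0, h.1]
          · have := h.2 (K - 1 - 1)
            rw [Nat.sub_add_cancel h0] at this
            omega
        by_cases c4 : w + 2 * T (K - 1 - 1) ≤ x.natAbs
        · have := a4 c4
          right
          omega
        · left
          omega
      · have c5 : T (idx T x + 1) ≤ T (K - 1) := h.mono.monotone (by omega)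
        left
        omega
  refine (Set.encard_le_encard hsub).trans ?_
  rw [Set.encard_coe_eq_coe_finsetCard]
  have hc := Finset.card_union_le (Finset.Ioo (-(2 * w : ℤ)) 0)
    (Finset.Ioc (-((T K : ℤ) + 2 * w)) (-(T K : ℤ) + 2 * w))
  rw [Int.card_Ioo, Int.card_Ioc] at hc
  exact_mod_cast hc.trans (by omega)

end Pool.Agent.H909R3.B7
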