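import Pool.Agent.H909R3.B7.Core

set_option autoImplicit false

namespace Pool.Agent.H909R3.B7

open Set

variable {T : ℕ → ℕ}

/-- growth condition on the sequence -/
def Grow (T : ℕ → ℕ) : Prop := T 0 = 0 ∧ ∀ k, 3 * T k < T (k + 1)

lemma Grow.mono (h : Grow T) : StrictMono T :=
  strictMono_nat_of_lt_succ fun k => by have := h.2 k; omega

lemma Grow.le (h : Grow T) (k : ℕ) : k ≤ T k := h.mono.id_le k

/-- index of the block that contains `x` -/
def idx (T : ℕ → ℕ) (x : ℤ) : ℕ := Nat.findGreatest (fun k => T k ≤ x.natAbs) x.natAbs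

lemma idx_le (h : Grow T) (x : ℤ) : T (idx T x) ≤ x.natAbs := by
  have := @Nat.findGreatest_spec 0 (fun k => T k ≤ x.natAbs) _ x.natAbs (Nat.zero_le _)
    (by simp [h.1])
  exact this

lemma lt_idx (h : Grow T) (x : ℤ) : x.natAbs < T (idx T x + 1) := by
  by_contra hc
  push Not at hc
  have h1 : idx T x + 1 ≤ x.natAbs := (h.le _).trans hc
  have h2 : idx T x + 1 ≤ idx T x := Nat.le_findGreatest h1 hc
  omega

lemma idx_eq (h : Grow T) (x : ℤ) (k : ℕ) (h1 : T k ≤ x.natAbs) (h2 : x.natAbs < T (k + 1)) :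
    idx T x = k := by
  have h3 := idx_le h x
  have h4 := lt_idx h x
  have h5 : k < idx T x + 1 := h.mono.lt_iff_lt.1 (lt_of_le_of_lt h1 h4)
  have h6 : idx T x < k + 1 := h.mono.lt_iff_lt.1 (lt_of_le_of_lt h3 h2)
  omega

lemma natAbs_lt_of_idx_lt (h : Grow T) (x : ℤ) (k : ℕ) (hk : idx T x < k) : x.natAbs < T k :=
  lt_of_lt_of_le (lt_idx h x) (h.mono.monotone hk)

/-- The set to be permuted: all `x ≥ 0` and the `x < 0` that are not close to the ends of their
blocks. -/
def Good (T : ℕ → ℕ) (x : ℤ) : Prop :=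
  0 ≤ x ∨ (T (idx T x) + 2 * T (idx T x - 1) ≤ x.natAbs ∧
    x.natAbs + 2 * T (idx T x) < T (idx T x + 1))

/-- parity flag -/
def ev (k : ℕ) : Bool := decide (k % 2 = 0)

/-- signed block number -/
def pos (k : ℕ) : ℤ := if k % 2 = 0 then (k : ℤ) else -(k : ℤ)

lemma pos_inj {k l : ℕ} (h : pos k = pos l) : k = l := by
  unfold pos at h
  split_ifs at h <;> omega

/-- the position of `x` -/
def fkey (T : ℕ → ℕ) (x : ℤ) : ℤ ×ₗ Lex (ℕ → Bool) :=
  toLex (pos (idx T x), key (ev (idx T x)) x)

lemma fkey_inj (x y : ℤ) (h : fkey T x = fkey T y) : x = y := by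
  have h1 : (pos (idx T x), key (ev (idx T x)) x) = (pos (idx T y), key (ev (idx T y)) y) :=
    toLex_inj.1 h
  rw [Prod.mk.injEq] at h1
  have h2 := pos_inj h1.1
  rw [h2] at h1
  exact key_inj _ _ _ h1.2

lemma fkey_lt {x y : ℤ} (h : fkey T x < fkey T y) :
    pos (idx T x) < pos (idx T y) ∨
      (idx T x = idx T y ∧ key (ev (idx T x)) x < key (ev (idx T x)) y) := by
  rcases Prod.Lex.lt_iff.1 h with h1 | ⟨h1, h2⟩
  · exact Or.inl h1
  · have h3 : idx T x = idx T y := pos_inj h1
    refine Or.inr ⟨h3, ?_⟩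
    change key (ev (idx T x)) x < key (ev (idx T y)) y at h2
    rwa [← h3] at h2

/-- The main combinatorial argument. -/
lemma core (h : Grow T) (r : ℤ → ℤ → Prop) (k : ℕ) (x d : ℤ)
    (hx : Good T x) (hx2 : Good T (x + d + d))
    (k1 : idx T x ≤ k) (k2 : idx T (x + d) ≤ k) (k3 : idx T (x + d + d) ≤ k)
    (k4 : idx T (x + d + d + d) = k)
    (r1 : r x (x + d)) (r2 : r (x + d) (x + d + d)) (r3 : r (x + d + d) (x + d + d + d))
    (H4 : ∀ u w, r u w → idx T u = k → idx T w ≤ k → idx T w = k)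
    (H5 : ∀ u w, r u w → idx T w = k - 1 → idx T u < k → idx T w < k → idx T u = k - 1)
    (H6 : ∀ u, idx T u = idx T (u + d) → idx T (u + d) = idx T (u + d + d) → r u (u + d) →
      ¬ r (u + d) (u + d + d))
    (H7 : ∀ u, idx T u = k - 1 → idx T (u + d) = k - 1 → idx T (u + d + d) = k →
      idx T (u + d + d + d) = k → 1 ≤ k → r u (u + d) → ¬ r (u + d + d) (u + d + d + d)) :
    False := by
  by_cases c2 : idx T (x + d) = k
  · have c3 : idx T (x + d + d) = k := H4 _ _ r2 c2 k3
    exact H6 (x + d) (c2.trans c3.symm) (c3.trans k4.symm) r2 r3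
  have c2' : idx T (x + d) < k := lt_of_le_of_ne k2 c2
  have c1' : idx T x < k := by
    rcases lt_or_eq_of_le k1 with hlt | heq
    · exact hlt
    · exact absurd (H4 _ _ r1 heq k2) c2
  have hk : 1 ≤ k := by omega
  have hg := h.2 (k - 1)
  rw [Nat.sub_add_cancel hk] at hg
  have a1 := natAbs_lt_of_idx_lt h _ _ c1'
  have a2 := natAbs_lt_of_idx_lt h _ _ c2'
  have a4 := idx_le h (x + d + d + d)
  rw [k4] at a4
  by_cases c3 : idx T (x + d + d) = k
  · by_cases c22 : idx T (x + d) = k - 1
    · have c11 := H5 _ _ r1 c22 c1' c2'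
      exact H7 x c11 c22 c3 k4 hk r1 r3
    · have b2 : (x + d).natAbs < T (k - 1) := natAbs_lt_of_idx_lt h _ _ (by omega)
      have b3 := idx_le h (x + d + d)
      rw [c3] at b3
      by_cases hs : 0 ≤ x + d + d
      · -- the third term is positive, the first one is negative
        have hneg : x < 0 := by omega
        rcases hx with hx | ⟨-, hx⟩
        · omega
        · by_cases hj : idx T x = k - 1
          · rw [hj, Nat.sub_add_cancel hk] at hx
            omega
          · have := natAbs_lt_of_idx_lt h x (k - 1) (by omega)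
            omega
      · rcases hx2 with hx2 | ⟨hx2, -⟩
        · omega
        · rw [c3] at hx2
          omega
  · have c3' : idx T (x + d + d) < k := lt_of_le_of_ne k3 c3
    have a3 := natAbs_lt_of_idx_lt h _ _ c3'
    have b3 : T (k - 1) < (x + d + d).natAbs := by omega
    have c33 : idx T (x + d + d) = k - 1 := by
      by_contra hne
      have := natAbs_lt_of_idx_lt h (x + d + d) (k - 1) (by omega)
      omega
    have c22 := H5 _ _ r2 c33 c2' c3'
    have c11 := H5 _ _ r1 c22 c1' c2'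
    exact H6 x (c11.trans c22.symm) (c22.trans c33.symm) r1 r2

lemma key_three_block (e : Bool) (x d : ℤ) (hd : d ≠ 0) :
    ¬ (key e x < key e (x + d) ∧ key e (x + d) < key e (x + d + d)) ∧
    ¬ (key e (x + d) < key e x ∧ key e (x + d + d) < key e (x + d)) := key_three e x d hd

lemma same_lt {x y : ℤ} (h : fkey T x < fkey T y) (hi : idx T x = idx T y) :
    key (ev (idx T x)) x < key (ev (idx T x)) y := by
  rcases fkey_lt h with h1 | ⟨-, h2⟩
  · rw [hi] at h1
    exact absurd h1 (lt_irrefl _)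
  · exact h2

lemma pos_le_of_lt {x y : ℤ} (h : fkey T x < fkey T y) : pos (idx T x) ≤ pos (idx T y) := by
  rcases fkey_lt h with h1 | ⟨h1, -⟩
  · exact h1.le
  · rw [h1]

lemma no_three {u d : ℤ} (hd : d ≠ 0) (h1 : idx T u = idx T (u + d))
    (h2 : idx T (u + d) = idx T (u + d + d)) :
    ¬ (fkey T u < fkey T (u + d) ∧ fkey T (u + d) < fkey T (u + d + d)) ∧
    ¬ (fkey T (u + d) < fkey T u ∧ fkey T (u + d + d) < fkey T (u + d)) := by
  obtain ⟨a, b⟩ := key_three (ev (idx T u)) u d hd
  constructor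
  · rintro ⟨p, q⟩
    have p' := same_lt p h1
    have q' := same_lt q h2
    rw [← h1] at q'
    exact a ⟨p', q'⟩
  · rintro ⟨p, q⟩
    have p' := same_lt p h1.symm
    have q' := same_lt q h2.symm
    rw [← h1] at p'
    rw [← h2, ← h1] at q'
    exact b ⟨p', q'⟩

lemma ev_pred {k : ℕ} (hk : 1 ≤ k) : ev k = !(ev (k - 1)) := by
  unfold ev
  by_cases h : k % 2 = 0
  · have : ¬ ((k - 1) % 2 = 0) := by omega
    simp [h, this]
  · have : ((k - 1) % 2 = 0) := by omega
    simp [h, this]

lemma no_four {u d : ℤ} {k : ℕ} (hd : d ≠ 0) (h1 : idx T u = k - 1) (h2 : idx T (u + d) = k - 1)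
    (h3 : idx T (u + d + d) = k) (h4 : idx T (u + d + d + d) = k) (hk : 1 ≤ k) :
    ¬ (fkey T u < fkey T (u + d) ∧ fkey T (u + d + d) < fkey T (u + d + d + d)) ∧
    ¬ (fkey T (u + d) < fkey T u ∧ fkey T (u + d + d + d) < fkey T (u + d + d)) := by
  obtain ⟨a, b⟩ := key_four (ev (k - 1)) u d hd
  rw [← ev_pred hk] at a b
  constructor
  · rintro ⟨p, q⟩
    have p' := same_lt p (h1.trans h2.symm)
    have q' := same_lt q (h3.trans h4.symm)
    rw [h1] at p'
    rw [h3] at q'
    exact a ⟨p', q'⟩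
  · rintro ⟨p, q⟩
    have p' := same_lt p (h2.trans h1.symm)
    have q' := same_lt q (h4.trans h3.symm)
    rw [h2] at p'
    rw [h4] at q'
    exact b ⟨p', q'⟩

theorem no_ap (h : Grow T) (x d : ℤ) (hd : d ≠ 0)
    (hx : Good T x) (hx1 : Good T (x + d)) (hx2 : Good T (x + d + d)) (hx3 : Good T (x + d + d + d))
    (r1 : fkey T x < fkey T (x + d)) (r2 : fkey T (x + d) < fkey T (x + d + d))
    (r3 : fkey T (x + d + d) < fkey T (x + d + d + d)) : False := by
  have p1 := pos_le_of_lt r1
  have p2 := pos_le_of_lt r2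
  have p3 := pos_le_of_lt r3
  obtain ⟨k, hk⟩ : ∃ k, k = max (max (idx T x) (idx T (x + d)))
    (max (idx T (x + d + d)) (idx T (x + d + d + d))) := ⟨_, rfl⟩
  have q1 : idx T x ≤ k := by omega
  have q2 : idx T (x + d) ≤ k := by omega
  have q3 : idx T (x + d + d) ≤ k := by omega
  have q4 : idx T (x + d + d + d) ≤ k := by omega
  by_cases hpar : k % 2 = 0
  · -- the last block is on the right
    refine core h (fun u w => fkey T u < fkey T w) k x d hx hx2 q1 q2 q3 ?_ r1 r2 r3
      ?_ ?_ ?_ ?_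
    · unfold pos at p1 p2 p3
      split_ifs at p1 p2 p3 <;> omega
    · intro u w hr hu hw
      have := pos_le_of_lt hr
      unfold pos at this
      split_ifs at this <;> omega
    · intro u w hr hw hu hw'
      have := pos_le_of_lt hr
      unfold pos at this
      split_ifs at this <;> omega
    · intro u e1 e2 a b
      exact (no_three hd e1 e2).1 ⟨a, b⟩
    · intro u e1 e2 e3 e4 hk1 a b
      exact (no_four hd e1 e2 e3 e4 hk1).1 ⟨a, b⟩
  · -- the last block is on the left, reverse the progression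
    have e1 : x + d + d + d + -d = x + d + d := by ring
    have e2 : x + d + d + -d = x + d := by ring
    have e3 : x + d + -d = x := by ring
    refine core h (fun u w => fkey T w < fkey T u) k (x + d + d + d) (-d) hx3
      (by rw [e1, e2]; exact hx1)
      q4 (by rw [e1]; exact q3) (by rw [e1, e2]; exact q2) ?_
      (by simp only [e1]; exact r3) (by simp only [e1, e2]; exact r2)
      (by simp only [e1, e2, e3]; exact r1) ?_ ?_ ?_ ?_
    · rw [e1, e2, e3]
      unfold pos at p1 p2 p3
      split_ifs at p1 p2 p3 <;> omega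
    · intro u w hr hu hw
      have := pos_le_of_lt hr
      unfold pos at this
      split_ifs at this <;> omega
    · intro u w hr hw hu hw'
      have := pos_le_of_lt hr
      unfold pos at this
      split_ifs at this <;> omega
    · intro u e1 e2 a b
      exact (no_three (neg_ne_zero.2 hd) e1 e2).2 ⟨a, b⟩
    · intro u e1 e2 e3 e4 hk1 a b
      exact (no_four (neg_ne_zero.2 hd) e1 e2 e3 e4 hk1).2 ⟨a, b⟩

end Pool.Agent.H909R3.B7
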